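import Pool.Agent.U136.DS.Stm

set_option autoImplicit false

/-! Project DS, part (QB): the correction of the Sobolev norms is small. -/

namespace Pool.Agent.U451.DS

open Pool.Agent.N983.RT Pool.Agent.U136.DS

/-- the length of the coefficient -/
noncomputable def fl (u : Fld) (k : Wv) : ℝ := Real.sqrt (∑ i, ‖u k i‖ ^ 2)

theorem fl_nn (u : Fld) (k : Wv) : 0 ≤ fl u k := Real.sqrt_nonneg _

theorem fl_sq (u : Fld) (k : Wv) : fl u k ^ 2 = ∑ i, ‖u k i‖ ^ 2 :=
  Real.sq_sqrt (Finset.sum_nonneg fun _ _ => sq_nonneg _)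

theorem le_fl (u : Fld) (k : Wv) (i : Fin 3) : ‖u k i‖ ≤ fl u k := by
  apply Real.le_sqrt_of_sq_le
  exact Finset.single_le_sum (f := fun i => ‖u k i‖ ^ 2) (fun i _ => sq_nonneg _)
    (Finset.mem_univ i)

theorem fl_zero (u : Fld) (k : Wv) (h : u k = 0) : fl u k = 0 := by
  simp [fl, h]

theorem nsq_nn (k : Wv) : 0 ≤ nsq k := Finset.sum_nonneg fun _ _ => sq_nonneg _

theorem nsq_neg' (k : Wv) : nsq (-k) = nsq k := by simp [nsq]

theorem one_le_nsq (k : Wv) (h : k ≠ 0) : 1 ≤ nsq k := by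
  obtain ⟨i, hi⟩ := Function.ne_iff.mp h
  have h1 : (1 : ℝ) ≤ (k i : ℝ) ^ 2 := by
    have h2 : (1 : ℤ) ≤ (k i) ^ 2 := by
      have : 0 < (k i) ^ 2 := by
        have h3 : k i ≠ 0 := by simpa using hi
        positivity
      omega
    exact_mod_cast h2
  exact h1.trans (Finset.single_le_sum (f := fun i => (k i : ℝ) ^ 2) (fun i _ => sq_nonneg _)
    (Finset.mem_univ i))

theorem abs_le_nsq (k : Wv) (i : Fin 3) : |(k i : ℝ)| ≤ nsq k ^ (1 / 2 : ℝ) := by
  rw [← Real.sqrt_eq_rpow]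
  apply Real.abs_le_sqrt
  exact Finset.single_le_sum (f := fun i => (k i : ℝ) ^ 2) (fun i _ => sq_nonneg _)
    (Finset.mem_univ i)

/-- one coefficient -/
theorem coeff (lam : Wv → ℝ) (c₁ τ : ℝ) (hc : 0 < c₁) (s : ℕ) (i : Fin 3) (k l : Wv) :
    |hnf lam c₁ τ k l (-(k + l)) * ((l i : ℝ) * nsq (k + l) ^ s)| ≤
      1 / c₁ * mx k l (-(k + l)) ^ ((s : ℝ) + 1 / 2 - τ / 2) := by
  have hm0 : 0 ≤ mx k l (-(k + l)) := (nsq_nn k).trans (le_max_left _ _)
  unfold hnf far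
  split_ifs with h
  · obtain ⟨hk, hl, hm, hL⟩ := h
    have hm1 : 1 ≤ mx k l (-(k + l)) := (one_le_nsq k hk).trans (le_max_left _ _)
    have hmp : 0 < mx k l (-(k + l)) := by linarith
    set m := mx k l (-(k + l)) with hmdef
    set L := lam k + lam l + lam (-(k + l))
    have hl1 : |(l i : ℝ)| ≤ m ^ (1 / 2 : ℝ) := (abs_le_nsq l i).trans
      (Real.rpow_le_rpow (nsq_nn l) ((le_max_left _ _).trans (le_max_right _ _)) (by norm_num))
    have hs1 : nsq (k + l) ^ s ≤ m ^ (s : ℝ) := by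
      rw [Real.rpow_natCast]
      apply pow_le_pow_left₀ (nsq_nn _)
      rw [← nsq_neg' (k + l)]
      exact (le_max_right _ _).trans (le_max_right _ _)
    have hLp : 0 < |L| := lt_of_lt_of_le (by positivity) hL
    have h1 : |1 / L| ≤ 1 / c₁ * m ^ (-(τ / 2)) := by
      rw [abs_div, abs_one, Real.rpow_neg hmp.le, ← one_div, one_div_mul_one_div]
      exact one_div_le_one_div_of_le (by positivity) hL
    rw [abs_mul, abs_mul, abs_of_nonneg (pow_nonneg (nsq_nn (k + l)) s)]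
    calc |1 / L| * (|(l i : ℝ)| * nsq (k + l) ^ s)
        ≤ (1 / c₁ * m ^ (-(τ / 2))) * (m ^ (1 / 2 : ℝ) * m ^ (s : ℝ)) := by
          apply mul_le_mul h1 _ (mul_nonneg (abs_nonneg _) (pow_nonneg (nsq_nn (k + l)) s))
            (by positivity)
          apply mul_le_mul hl1 hs1 (pow_nonneg (nsq_nn (k + l)) s) (by positivity)
      _ = 1 / c₁ * m ^ ((s : ℝ) + 1 / 2 - τ / 2) := by
          rw [mul_assoc, ← Real.rpow_add hmp, ← Real.rpow_add hmp]
          ring_nf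
  · rw [zero_div, zero_mul, abs_zero]
    positivity

/-- the trilinear sum -/
theorem form_le (lam : Wv → ℝ) (c₁ τ : ℝ) (hc : 0 < c₁) (s n : ℕ) (u : Fld) :
    ‖form (hnf lam c₁ τ) s n u‖ ≤ 9 / c₁ * ∑ k ∈ cub n, ∑ l ∈ cub n,
      mx k l (-(k + l)) ^ ((s : ℝ) + 1 / 2 - τ / 2) * (fl u k * fl u l * fl u (-(k + l))) := by
  have h1 : ∀ i j : Fin 3, ‖Tri (fun k l => hnf lam c₁ τ k l (-(k + l)) *
      ((l i : ℝ) * nsq (k + l) ^ s)) n (fun k => u k i) (fun k => u k j) (fun k => u k j)‖ ≤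
      1 / c₁ * ∑ k ∈ cub n, ∑ l ∈ cub n,
      mx k l (-(k + l)) ^ ((s : ℝ) + 1 / 2 - τ / 2) * (fl u k * fl u l * fl u (-(k + l))) := by
    intro i j
    unfold Tri
    rw [Finset.mul_sum]
    refine (norm_sum_le _ _).trans (Finset.sum_le_sum fun k _ => ?_)
    rw [Finset.mul_sum]
    refine (norm_sum_le _ _).trans (Finset.sum_le_sum fun l _ => ?_)
    rw [norm_mul, norm_mul, norm_mul, Complex.norm_real, Real.norm_eq_abs]
    calc |hnf lam c₁ τ k l (-(k + l)) * ((l i : ℝ) * nsq (k + l) ^ s)| * ‖u k i‖ * ‖u l j‖ *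
          ‖u (-(k + l)) j‖
        = |hnf lam c₁ τ k l (-(k + l)) * ((l i : ℝ) * nsq (k + l) ^ s)| *
          (‖u k i‖ * ‖u l j‖ * ‖u (-(k + l)) j‖) := by ring
      _ ≤ (1 / c₁ * mx k l (-(k + l)) ^ ((s : ℝ) + 1 / 2 - τ / 2)) *
          (fl u k * fl u l * fl u (-(k + l))) := by
          have hm0 : 0 ≤ mx k l (-(k + l)) := (nsq_nn k).trans (le_max_left _ _)
          apply mul_le_mul (coeff lam c₁ τ hc s i k l) _ (by positivity) (by positivity)
          apply mul_le_mul _ (le_fl _ _ _) (norm_nonneg _)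
            (mul_nonneg (fl_nn _ _) (fl_nn _ _))
          exact mul_le_mul (le_fl _ _ _) (le_fl _ _ _) (norm_nonneg _) (fl_nn _ _)
      _ = _ := by ring
  unfold form
  refine (norm_sum_le _ _).trans ?_
  refine (Finset.sum_le_sum fun i _ => (norm_sum_le _ _).trans
    (Finset.sum_le_sum fun j _ => h1 i j)).trans (le_of_eq ?_)
  simp only [Finset.sum_const, Finset.card_univ, Fintype.card_fin, nsmul_eq_mul]
  push_cast
  ring

/-- lower powers -/
theorem low_pow (b s ε : ℝ) (hb : 0 ≤ b) (hbs : b < s) (hε : 0 < ε) :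
    ∃ C : ℝ, 0 ≤ C ∧ ∀ x : ℝ, 0 ≤ x → x ^ b ≤ ε * x ^ s + C := by
  set X : ℝ := (1 / ε) ^ (1 / (s - b)) with hX
  have hXp : 0 < X := Real.rpow_pos_of_pos (by positivity) _
  refine ⟨X ^ b, by positivity, fun x hx => ?_⟩
  rcases le_or_gt x X with h | h
  · have h1 : x ^ b ≤ X ^ b := Real.rpow_le_rpow hx h hb
    have h2 : 0 ≤ ε * x ^ s := by positivity
    linarith
  · have hxp : 0 < x := hXp.trans h
    have h1 : 1 / ε ≤ x ^ (s - b) := by
      have h2 : X ^ (s - b) = 1 / ε := by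
        rw [hX, ← Real.rpow_mul (by positivity), one_div_mul_cancel (by linarith), Real.rpow_one]
      rw [← h2]
      exact Real.rpow_le_rpow hXp.le h.le (by linarith)
    have h3 : x ^ s = x ^ (s - b) * x ^ b := by
      rw [← Real.rpow_add hxp]; ring_nf
    have h4 : 1 ≤ ε * x ^ (s - b) := by
      calc (1 : ℝ) = ε * (1 / ε) := by field_simp
        _ ≤ ε * x ^ (s - b) := mul_le_mul_of_nonneg_left h1 hε.le
    have h5 : 0 ≤ x ^ b := by positivity
    have h6 : 0 ≤ X ^ b := by positivity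
    rw [h3]
    nlinarith

theorem t_QB : S_QB := by
  intro hS3 lam c₁ τ hc hτ3 hτ4 s hs M ε hε
  have hs2 : (2 : ℝ) ≤ (s : ℝ) := by exact_mod_cast hs
  set η : ℝ := (τ / 2 - 5 / 4) / 2 with hη
  have hηp : 0 < η := by rw [hη]; linarith
  set p : ℝ := 2 * (s : ℝ) + 1 - τ with hp
  obtain ⟨C, hC0, hC⟩ := hS3 p η (by rw [hp]; linarith) hηp
  set b : ℝ := p / 2 + 3 / 4 + η with hb
  have hbs : b < (s : ℝ) := by rw [hb, hp, hη]; linarith
  have hb0 : 0 ≤ b := by rw [hb, hp, hη]; linarith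
  set A : ℝ := 9 / c₁ * (C * Real.sqrt M) with hA
  have hA0 : 0 ≤ A := by positivity
  obtain ⟨C', hC'0, hC'⟩ := low_pow b s (ε / (A + 1)) hb0 hbs (by positivity)
  refine ⟨A * (C' * M), fun n u hu hcut hM => ?_⟩
  have hE0 : En 0 n u = ∑ k ∈ cub n, fl u k ^ 2 := by
    unfold En
    exact Finset.sum_congr rfl fun k _ => by rw [fl_sq, pow_zero, one_mul]
  have hEs : En s n u = ∑ k ∈ cub n, nsq k ^ (s : ℝ) * fl u k ^ 2 := by
    unfold En
    exact Finset.sum_congr rfl fun k _ => by rw [fl_sq, Real.rpow_natCast]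
  have hEs0 : 0 ≤ En s n u := by
    rw [hEs]
    exact Finset.sum_nonneg fun k _ =>
      mul_nonneg (Real.rpow_nonneg (nsq_nn k) _) (sq_nonneg _)
  have h1 := form_le lam c₁ τ hc s n u
  have h2 := hC n (fl u) (fl_nn u) (fl_zero u 0 hu.zero) (fun k hk => fl_zero u k (hcut k hk))
  have hpe : p / 2 = (s : ℝ) + 1 / 2 - τ / 2 := by rw [hp]; ring
  rw [← hpe] at h1
  have h3 : ∑ k ∈ cub n, nsq k ^ b * fl u k ^ 2 ≤ ε / (A + 1) * En s n u + C' * M := by
    calc ∑ k ∈ cub n, nsq k ^ b * fl u k ^ 2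
        ≤ ∑ k ∈ cub n, (ε / (A + 1) * (nsq k ^ (s : ℝ) * fl u k ^ 2) + C' * fl u k ^ 2) := by
          refine Finset.sum_le_sum fun k _ => ?_
          have := mul_le_mul_of_nonneg_right (hC' (nsq k) (nsq_nn k)) (sq_nonneg (fl u k))
          linarith
      _ = ε / (A + 1) * En s n u + C' * En 0 n u := by
          rw [Finset.sum_add_distrib, ← Finset.mul_sum, ← Finset.mul_sum, hEs, hE0]
      _ ≤ ε / (A + 1) * En s n u + C' * M := by
          have := mul_le_mul_of_nonneg_left hM hC'0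
          linarith
  have h4 : Real.sqrt (∑ k ∈ cub n, fl u k ^ 2) ≤ Real.sqrt M := by
    rw [← hE0]
    exact Real.sqrt_le_sqrt hM
  have h5 : 0 ≤ ∑ k ∈ cub n, nsq k ^ b * fl u k ^ 2 :=
    Finset.sum_nonneg fun k _ => mul_nonneg (Real.rpow_nonneg (nsq_nn k) _) (sq_nonneg _)
  calc ‖form (hnf lam c₁ τ) s n u‖
      ≤ 9 / c₁ * ∑ k ∈ cub n, ∑ l ∈ cub n,
        mx k l (-(k + l)) ^ (p / 2) * (fl u k * fl u l * fl u (-(k + l))) := h1
    _ ≤ 9 / c₁ * (C * Real.sqrt (∑ k ∈ cub n, fl u k ^ 2) *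
        ∑ k ∈ cub n, nsq k ^ b * fl u k ^ 2) :=
        mul_le_mul_of_nonneg_left h2 (by positivity)
    _ ≤ 9 / c₁ * (C * Real.sqrt M * ∑ k ∈ cub n, nsq k ^ b * fl u k ^ 2) := by
        apply mul_le_mul_of_nonneg_left _ (by positivity)
        apply mul_le_mul_of_nonneg_right _ h5
        exact mul_le_mul_of_nonneg_left h4 hC0
    _ = A * ∑ k ∈ cub n, nsq k ^ b * fl u k ^ 2 := by rw [hA]; ring
    _ ≤ A * (ε / (A + 1) * En s n u + C' * M) := mul_le_mul_of_nonneg_left h3 hA0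
    _ = (A / (A + 1)) * (ε * En s n u) + A * (C' * M) := by
        field_simp
    _ ≤ 1 * (ε * En s n u) + A * (C' * M) := by
        have h6 : A / (A + 1) ≤ 1 := by
          rw [div_le_one (by positivity)]; linarith
        have h7 := mul_le_mul_of_nonneg_right h6 (mul_nonneg hε.le hEs0)
        linarith
    _ = ε * En s n u + A * (C' * M) := by rw [one_mul]

end Pool.Agent.U451.DS
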